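import Mathlib
import Pool.Agent.H16.QuadCF

set_option autoImplicit false

namespace Pool.Agent.Results.MP_f17d28_nt.TwoPerPeriod

theorem result :
    ∃ (k : ℕ) (d x₀ : ℚ) (L i j : ℕ), ¬ IsSquare k ∧ 0 < d ∧
      (∃ R : ℤ, 4 * d ^ 2 / (k - d ^ 2) = R) ∧
      IsLeast {M : ℕ | 0 < M ∧ ∀ n, 1 ≤ n →
        ⌊(fun x : ℝ => (Int.fract x)⁻¹)^[n + M] (√(k : ℝ))⌋ =
          ⌊(fun x : ℝ => (Int.fract x)⁻¹)^[n] (√(k : ℝ))⌋} L ∧
      ¬ i ≡ j [MOD L] ∧
      ∀ f : Option ℚ → Option ℚ, f none = some d → f (some (-d)) = none →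
        (∀ x : ℚ, x ≠ -d → f (some x) = some ((d * x + k) / (x + d))) →
        (∀ n : ℕ, f^[n] none ≠ some x₀) ∧ (∀ n : ℕ, f^[n] (some x₀) ≠ none) ∧
        (∃ n : ℕ, f^[n] (some x₀) = some (Real.convergent (√(k : ℝ)) i)) ∧
        (∃ n : ℕ, f^[n] (some x₀) = some (Real.convergent (√(k : ℝ)) j)) := by
  have s0 := Pool.Agent.H16.QuadCF.step 22 4 0 1 4 4 6 (by norm_num) (by norm_num) (by norm_num)
    (by norm_num) (by norm_num) (by norm_num) (by norm_num) (by norm_num)
  have s1 := Pool.Agent.H16.QuadCF.step 22 4 4 6 1 2 3 (by norm_num) (by norm_num) (by norm_num)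
    (by norm_num) (by norm_num) (by norm_num) (by norm_num) (by norm_num)
  have s2 := Pool.Agent.H16.QuadCF.step 22 4 2 3 2 4 2 (by norm_num) (by norm_num) (by norm_num)
    (by norm_num) (by norm_num) (by norm_num) (by norm_num) (by norm_num)
  have s3 := Pool.Agent.H16.QuadCF.step 22 4 4 2 4 4 3 (by norm_num) (by norm_num) (by norm_num)
    (by norm_num) (by norm_num) (by norm_num) (by norm_num) (by norm_num)
  have s4 := Pool.Agent.H16.QuadCF.step 22 4 4 3 2 2 6 (by norm_num) (by norm_num) (by norm_num)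
    (by norm_num) (by norm_num) (by norm_num) (by norm_num) (by norm_num)
  have s5 := Pool.Agent.H16.QuadCF.step 22 4 2 6 1 4 1 (by norm_num) (by norm_num) (by norm_num)
    (by norm_num) (by norm_num) (by norm_num) (by norm_num) (by norm_num)
  have s6 := Pool.Agent.H16.QuadCF.step 22 4 4 1 8 4 6 (by norm_num) (by norm_num) (by norm_num)
    (by norm_num) (by norm_num) (by norm_num) (by norm_num) (by norm_num)
  simp only [Int.cast_zero, Int.cast_one, zero_add, div_one] at s0
  set G : ℝ → ℝ := fun x : ℝ => (Int.fract x)⁻¹ with hG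
  have g1 : G^[1] (√((22 : ℕ) : ℝ)) = _ := s0.2
  have g2 : G^[2] (√((22 : ℕ) : ℝ)) = _ :=
    ((Function.iterate_succ_apply' G 1 _).trans (congrArg G g1)).trans s1.2
  have g3 : G^[3] (√((22 : ℕ) : ℝ)) = _ :=
    ((Function.iterate_succ_apply' G 2 _).trans (congrArg G g2)).trans s2.2
  have g4 : G^[4] (√((22 : ℕ) : ℝ)) = _ :=
    ((Function.iterate_succ_apply' G 3 _).trans (congrArg G g3)).trans s3.2
  have g5 : G^[5] (√((22 : ℕ) : ℝ)) = _ :=
    ((Function.iterate_succ_apply' G 4 _).trans (congrArg G g4)).trans s4.2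
  have g6 : G^[6] (√((22 : ℕ) : ℝ)) = _ :=
    ((Function.iterate_succ_apply' G 5 _).trans (congrArg G g5)).trans s5.2
  have g7 : G^[7] (√((22 : ℕ) : ℝ)) = _ :=
    ((Function.iterate_succ_apply' G 6 _).trans (congrArg G g6)).trans s6.2
  have per : ∀ n, 1 ≤ n → G^[n + 6] (√((22 : ℕ) : ℝ)) = G^[n] (√((22 : ℕ) : ℝ)) := by
    intro n hn
    obtain ⟨t, rfl⟩ : ∃ t, n = t + 1 := ⟨n - 1, by omega⟩
    rw [show t + 1 + 6 = t + 7 by ring, Function.iterate_add_apply, g7, ← g1,
      ← Function.iterate_add_apply]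
  have c0 : Real.convergent (√((22 : ℕ) : ℝ)) 0 = 4 := by
    rw [Real.convergent_zero, s0.1]; norm_num
  have c3 : Real.convergent (√((22 : ℕ) : ℝ)) 3 = 61 / 13 := by
    rw [Real.convergent_succ, s0.1, s0.2, Real.convergent_succ, s1.1, s1.2, Real.convergent_succ,
      s2.1, s2.2, Real.convergent_zero, s3.1]
    norm_num
  refine ⟨22, 14 / 3, 4, 6, 0, 3, by decide +kernel, by norm_num, ⟨392, by norm_num⟩,
    ⟨⟨by norm_num, fun n hn => by rw [per n hn]⟩, ?_⟩, by decide, ?_⟩
  · rintro M ⟨hM, h⟩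
    by_contra hc
    have h6 := h 6 (by norm_num)
    rw [add_comm, per M hM, g6, s6.1] at h6
    have : M = 1 ∨ M = 2 ∨ M = 3 ∨ M = 4 ∨ M = 5 := by omega
    rcases this with rfl | rfl | rfl | rfl | rfl
    · rw [g1, s1.1] at h6; norm_num at h6
    · rw [g2, s2.1] at h6; norm_num at h6
    · rw [g3, s3.1] at h6; norm_num at h6
    · rw [g4, s4.1] at h6; norm_num at h6
    · rw [g5, s5.1] at h6; norm_num at h6
  · intro f h1 _ h3
    have inv : ∀ x : ℚ, 0 < x → ∃ y : ℚ, 9 / 2 < y ∧ f (some x) = some y := by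
      intro x hx
      refine ⟨_, ?_, h3 x (by linarith)⟩
      rw [lt_div_iff₀ (by linarith)]
      push_cast
      linarith
    have it : ∀ x : ℚ, 9 / 2 < x → ∀ n : ℕ, ∃ y : ℚ, 9 / 2 < y ∧ f^[n] (some x) = some y := by
      intro x hx n
      induction n with
      | zero => exact ⟨x, hx, rfl⟩
      | succ n ih =>
        obtain ⟨y, hy, h⟩ := ih
        rw [Function.iterate_succ_apply', h]
        exact inv y (by linarith)
    have f4 : f (some 4) = some (61 / 13) := by
      rw [h3 4 (by norm_num)]; norm_num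
    refine ⟨?_, ?_, ⟨0, by rw [c0]; rfl⟩, ⟨1, by rw [c3]; exact f4⟩⟩
    · intro n
      rcases n with _ | n
      · simp
      · rw [Function.iterate_succ_apply, h1]
        obtain ⟨y, hy, h⟩ := it (14 / 3) (by norm_num) n
        rw [h]
        intro e
        have := Option.some.inj e
        linarith
    · intro n
      rcases n with _ | n
      · simp
      · rw [Function.iterate_succ_apply, f4]
        obtain ⟨y, hy, h⟩ := it (61 / 13) (by norm_num) n
        rw [h]; simp

end Pool.Agent.Results.MP_f17d28_nt.TwoPerPeriod
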